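import Pool.Agent.Q99.BC.Cube

set_option autoImplicit false

/-! The construction in the direct sum of cubes. -/

namespace Pool.Agent.Q99.BC

open Finset

noncomputable section

/-- direct sum of cubes -/
abbrev GG (n : ℕ → ℕ) : Type := Π₀ k : ℕ, Cu (n k)

variable (n m : ℕ → ℕ)

theorem gadd_self (g : GG n) : g + g = 0 := by
  ext1 k
  exact add_self (g k)

/-- the two base points -/
def x0 : Bool → GG n
  | false => 0
  | true => DFinsupp.single 0 1

variable (side : ℕ → Bool) (c : ℕ → GG n)

open Classical in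
/-- the finite parts of the dense set -/
def EF : ℕ → Finset (GG n)
  | 0 => {0}
  | K + 1 => ((EF K ×ˢ Lo (n (K + 1)) (m (K + 1))).image fun p =>
        p.1 + DFinsupp.single (K + 1) p.2) ∪
      ((EF K ×ˢ Lo (n (K + 1)) (m (K + 1))).image fun p =>
        p.1 + (c K + x0 n (side K)) + DFinsupp.single (K + 1) (p.2 + 1))

/-- the two avoiding sets, finite levels -/
def XL (s : Bool) : ℕ → Set (GG n)
  | 0 => {x0 n s}
  | K + 1 => XL s K ∪ {x | side K = s ∧ ∃ h ∈ Hi (n (K + 1)) (m (K + 1)),
      x = c K + DFinsupp.single (K + 1) h}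

variable {n m side c}

theorem x0_supp (s : Bool) (j : ℕ) (hj : 0 < j) : x0 n s j = 0 := by
  cases s
  · rfl
  · exact DFinsupp.single_eq_of_ne (by omega)

theorem EF_cases {K : ℕ} {e : GG n} (he : e ∈ EF n m side c (K + 1)) :
    ∃ u ∈ EF n m side c K, ∃ l ∈ Lo (n (K + 1)) (m (K + 1)),
      e = u + DFinsupp.single (K + 1) l ∨
      e = u + (c K + x0 n (side K)) + DFinsupp.single (K + 1) (l + 1) := by
  rw [EF, mem_union, mem_image, mem_image] at he
  rcases he with ⟨p, hp, rfl⟩ | ⟨p, hp, rfl⟩
  · rw [mem_product] at hp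
    exact ⟨p.1, hp.1, p.2, hp.2, Or.inl rfl⟩
  · rw [mem_product] at hp
    exact ⟨p.1, hp.1, p.2, hp.2, Or.inr rfl⟩

theorem EF_supp (hc : ∀ K j, K < j → c K j = 0) (K : ℕ) :
    ∀ e ∈ EF n m side c K, ∀ j, K < j → e j = 0 := by
  induction K with
  | zero =>
    intro e he j _
    rw [EF, mem_singleton] at he
    rw [he]; rfl
  | succ K ih =>
    intro e he j hj
    obtain ⟨u, hu, l, _, h | h⟩ := EF_cases he
    · rw [h, DFinsupp.add_apply, ih u hu j (by omega), DFinsupp.single_eq_of_ne (by omega), add_zero]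
    · rw [h, DFinsupp.add_apply, DFinsupp.add_apply, DFinsupp.add_apply, ih u hu j (by omega),
        hc K j (by omega), x0_supp _ j (by omega), DFinsupp.single_eq_of_ne (by omega)]
      simp

theorem XL_supp (hc : ∀ K j, K < j → c K j = 0) (s : Bool) (K : ℕ) :
    ∀ x ∈ XL n m side c s K, ∀ j, K < j → x j = 0 := by
  induction K with
  | zero =>
    intro x hx j hj
    have : x = x0 n s := hx
    rw [this, x0_supp _ _ hj]
  | succ K ih =>
    intro x hx j hj
    rcases hx with hx | ⟨_, h, _, rfl⟩
    · exact ih x hx j (by omega)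
    · rw [DFinsupp.add_apply, hc K j (by omega), DFinsupp.single_eq_of_ne (by omega), add_zero]

theorem EF_mono (hm : ∀ k, m k < n k) (K : ℕ) : EF n m side c K ⊆ EF n m side c (K + 1) := by
  intro e he
  rw [EF, mem_union, mem_image]
  left
  refine ⟨(e, 0), mem_product.2 ⟨he, zero_lo (hm _)⟩, ?_⟩
  simp

theorem EF_mono' (hm : ∀ k, m k < n k) {K K' : ℕ} (h : K ≤ K') :
    EF n m side c K ⊆ EF n m side c K' := by
  induction h with
  | refl => exact subset_rfl
  | step _ ih => exact ih.trans (EF_mono hm _)

theorem XL_mono (s : Bool) {K K' : ℕ} (h : K ≤ K') : XL n m side c s K ⊆ XL n m side c s K' := by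
  induction h with
  | refl => exact subset_rfl
  | step _ ih => exact ih.trans (fun x hx => Or.inl hx)

theorem x0_mem (s : Bool) (K : ℕ) : x0 n s ∈ XL n m side c s K :=
  XL_mono s (Nat.zero_le K) rfl

/-- block component of an element of the next stage -/
theorem block (hc : ∀ K j, K < j → c K j = 0) {K : ℕ} {u : GG n} (hu : ∀ j, K < j → u j = 0)
    (v : Cu (n (K + 1))) : (u + DFinsupp.single (K + 1) v : GG n) (K + 1) = v := by
  rw [DFinsupp.add_apply, hu _ (Nat.lt_succ_self K), zero_add, DFinsupp.single_eq_same]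

/-- the step for the new points -/
theorem step_new (hc : ∀ K j, K < j → c K j = 0) {K : ℕ} {z0 z : GG n}
    (hz0 : z0 = x0 n (side K)) (hz : ∀ j, K < j → z j = 0)
    (hav : ∀ u ∈ EF n m side c K, ∀ u' ∈ EF n m side c K, u + z0 ≠ u' + z)
    {h : Cu (n (K + 1))} (hh : h ∈ Hi (n (K + 1)) (m (K + 1)))
    {e e' : GG n} (he : e ∈ EF n m side c (K + 1)) (he' : e' ∈ EF n m side c (K + 1)) :
    e + (c K + DFinsupp.single (K + 1) h) ≠ e' + z := by
  intro heq
  obtain ⟨u, hu, l, hl, h1⟩ := EF_cases he
  obtain ⟨u', hu', l', hl', h1'⟩ := EF_cases he'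
  have hus := EF_supp hc K u hu
  have hus' := EF_supp hc K u' hu'
  have hb := congrArg (fun g : GG n => g (K + 1)) heq
  simp only [DFinsupp.add_apply] at hb
  have hcK := hc K (K + 1) (Nat.lt_succ_self K)
  have hzK := hz (K + 1) (Nat.lt_succ_self K)
  have hxK : x0 n (side K) (K + 1) = 0 := x0_supp _ _ (Nat.succ_pos K)
  have huK := hus (K + 1) (Nat.lt_succ_self K)
  have huK' := hus' (K + 1) (Nat.lt_succ_self K)
  rw [hcK, hzK, DFinsupp.single_eq_same, zero_add, add_zero] at hb
  rcases h1 with h1 | h1 <;> rcases h1' with h1' | h1'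
  · rw [h1, h1', DFinsupp.add_apply, DFinsupp.add_apply, huK, huK', DFinsupp.single_eq_same,
      DFinsupp.single_eq_same, zero_add, zero_add] at hb
    exact lo_hi hl hl' hh hb
  · rw [h1, h1', DFinsupp.add_apply, DFinsupp.add_apply, DFinsupp.add_apply, DFinsupp.add_apply,
      huK, huK', hcK, hxK, DFinsupp.single_eq_same, DFinsupp.single_eq_same] at hb
    simp only [zero_add] at hb
    -- low part
    have e1 : (DFinsupp.single (K + 1) l + DFinsupp.single (K + 1) h : GG n) =
        DFinsupp.single (K + 1) (l' + 1) := by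
      rw [← DFinsupp.single_add, hb]
    rw [h1, h1'] at heq
    have e2 : u + c K + (DFinsupp.single (K + 1) l + DFinsupp.single (K + 1) h) =
        u' + (c K + x0 n (side K)) + z + DFinsupp.single (K + 1) (l' + 1) := by
      calc u + c K + (DFinsupp.single (K + 1) l + DFinsupp.single (K + 1) h)
          = u + DFinsupp.single (K + 1) l + (c K + DFinsupp.single (K + 1) h) := by abel
        _ = u' + (c K + x0 n (side K)) + DFinsupp.single (K + 1) (l' + 1) + z := heq
        _ = _ := by abel
    rw [e1] at e2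
    have e3 := add_right_cancel e2
    apply hav u hu u' hu'
    have e4 : u + c K = (u' + x0 n (side K) + z) + c K := by rw [e3]; abel
    have e5 := add_right_cancel e4
    rw [hz0, e5]
    calc u' + x0 n (side K) + z + x0 n (side K) = u' + z + (x0 n (side K) + x0 n (side K)) := by abel
      _ = u' + z := by rw [gadd_self, add_zero]
  · rw [h1, h1', DFinsupp.add_apply, DFinsupp.add_apply, DFinsupp.add_apply, DFinsupp.add_apply,
      huK, huK', hcK, hxK, DFinsupp.single_eq_same, DFinsupp.single_eq_same] at hb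
    simp only [zero_add] at hb
    have e1 : (DFinsupp.single (K + 1) (l + 1) + DFinsupp.single (K + 1) h : GG n) =
        DFinsupp.single (K + 1) l' := by
      rw [← DFinsupp.single_add, hb]
    rw [h1, h1'] at heq
    have e2 : u + (c K + x0 n (side K)) + c K +
        (DFinsupp.single (K + 1) (l + 1) + DFinsupp.single (K + 1) h) =
        u' + z + DFinsupp.single (K + 1) l' := by
      calc u + (c K + x0 n (side K)) + c K +
            (DFinsupp.single (K + 1) (l + 1) + DFinsupp.single (K + 1) h)
          = u + (c K + x0 n (side K)) + DFinsupp.single (K + 1) (l + 1) +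
            (c K + DFinsupp.single (K + 1) h) := by abel
        _ = u' + DFinsupp.single (K + 1) l' + z := heq
        _ = _ := by abel
    rw [e1] at e2
    have e3 := add_right_cancel e2
    apply hav u hu u' hu'
    rw [hz0, ← e3]
    calc u + x0 n (side K) = u + x0 n (side K) + 0 := by rw [add_zero]
      _ = u + x0 n (side K) + (c K + c K) := by rw [gadd_self]
      _ = _ := by abel
  · rw [h1, h1', DFinsupp.add_apply, DFinsupp.add_apply, DFinsupp.add_apply, DFinsupp.add_apply,
      DFinsupp.add_apply, DFinsupp.add_apply,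
      huK, huK', hcK, hxK, DFinsupp.single_eq_same, DFinsupp.single_eq_same] at hb
    simp only [zero_add] at hb
    have : l + h = l' := by
      apply add_right_cancel (b := (1 : Cu (n (K + 1))))
      rw [← hb]; abel
    exact lo_hi hl hl' hh this

/-- the step for the old points -/
theorem step_old (hc : ∀ K j, K < j → c K j = 0) {K : ℕ} {x z : GG n}
    (hx : ∀ j, K < j → x j = 0) (hz : ∀ j, K < j → z j = 0)
    (hav : ∀ u ∈ EF n m side c K, ∀ u' ∈ EF n m side c K, u + x ≠ u' + z)
    {e e' : GG n} (he : e ∈ EF n m side c (K + 1)) (he' : e' ∈ EF n m side c (K + 1)) :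
    e + x ≠ e' + z := by
  intro heq
  obtain ⟨u, hu, l, hl, h1⟩ := EF_cases he
  obtain ⟨u', hu', l', hl', h1'⟩ := EF_cases he'
  have hus := EF_supp hc K u hu
  have hus' := EF_supp hc K u' hu'
  have hb := congrArg (fun g : GG n => g (K + 1)) heq
  simp only [DFinsupp.add_apply] at hb
  have hcK := hc K (K + 1) (Nat.lt_succ_self K)
  have hzK := hz (K + 1) (Nat.lt_succ_self K)
  have hxK' := hx (K + 1) (Nat.lt_succ_self K)
  have hxK : x0 n (side K) (K + 1) = 0 := x0_supp _ _ (Nat.succ_pos K)
  have huK := hus (K + 1) (Nat.lt_succ_self K)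
  have huK' := hus' (K + 1) (Nat.lt_succ_self K)
  rw [hxK', hzK, add_zero, add_zero] at hb
  have hno : ∀ a ∈ Lo (n (K + 1)) (m (K + 1)), ∀ a' ∈ Lo (n (K + 1)) (m (K + 1)), a + 1 ≠ a' :=
    fun a ha a' ha' => lo_hi ha ha' (one_hi _ _)
  rcases h1 with h1 | h1 <;> rcases h1' with h1' | h1'
  · rw [h1, h1', DFinsupp.add_apply, DFinsupp.add_apply, huK, huK', DFinsupp.single_eq_same,
      DFinsupp.single_eq_same, zero_add, zero_add] at hb
    rw [h1, h1', hb] at heq
    apply hav u hu u' hu'
    apply add_right_cancel (b := (DFinsupp.single (K + 1) l' : GG n))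
    calc u + x + DFinsupp.single (K + 1) l' = u + DFinsupp.single (K + 1) l' + x := by abel
      _ = u' + DFinsupp.single (K + 1) l' + z := heq
      _ = _ := by abel
  · rw [h1, h1', DFinsupp.add_apply, DFinsupp.add_apply, DFinsupp.add_apply, DFinsupp.add_apply,
      huK, huK', hcK, hxK, DFinsupp.single_eq_same, DFinsupp.single_eq_same] at hb
    simp only [zero_add] at hb
    exact hno l' hl' l hl hb.symm
  · rw [h1, h1', DFinsupp.add_apply, DFinsupp.add_apply, DFinsupp.add_apply, DFinsupp.add_apply,
      huK, huK', hcK, hxK, DFinsupp.single_eq_same, DFinsupp.single_eq_same] at hb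
    simp only [zero_add] at hb
    exact hno l hl l' hl' hb
  · rw [h1, h1', DFinsupp.add_apply, DFinsupp.add_apply, DFinsupp.add_apply, DFinsupp.add_apply,
      DFinsupp.add_apply, DFinsupp.add_apply,
      huK, huK', hcK, hxK, DFinsupp.single_eq_same, DFinsupp.single_eq_same] at hb
    simp only [zero_add] at hb
    rw [h1, h1', hb] at heq
    apply hav u hu u' hu'
    apply add_right_cancel (b := (c K + x0 n (side K) + DFinsupp.single (K + 1) (l' + 1) : GG n))
    calc u + x + (c K + x0 n (side K) + DFinsupp.single (K + 1) (l' + 1))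
        = u + (c K + x0 n (side K)) + DFinsupp.single (K + 1) (l' + 1) + x := by abel
      _ = u' + (c K + x0 n (side K)) + DFinsupp.single (K + 1) (l' + 1) + z := heq
      _ = _ := by abel

/-- the differences of the two sets avoid the differences of the dense set -/
theorem avoid (hn0 : 0 < n 0) (hc : ∀ K j, K < j → c K j = 0) (K : ℕ) :
    ∀ x ∈ XL n m side c true K, ∀ z ∈ XL n m side c false K,
      ∀ e ∈ EF n m side c K, ∀ e' ∈ EF n m side c K, e + x ≠ e' + z := by
  induction K with
  | zero =>
    intro x hx z hz e he e' he'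
    have hx' : x = DFinsupp.single 0 1 := hx
    have hz' : z = 0 := hz
    rw [EF, mem_singleton] at he he'
    rw [he, he', hx', hz', zero_add, zero_add]
    intro h
    have h1 := congrArg (fun g : GG n => g 0) h
    simp only [DFinsupp.single_eq_same, DFinsupp.zero_apply] at h1
    have h2 := congrFun h1 ⟨0, hn0⟩
    simp at h2
  | succ K ih =>
    intro x hx z hz e he e' he'
    rcases hx with hx | ⟨hs, h, hh, rfl⟩
    · rcases hz with hz | ⟨hs, h, hh, rfl⟩
      · exact step_old hc (XL_supp hc _ K x hx) (XL_supp hc _ K z hz)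
          (fun u hu u' hu' => ih x hx z hz u hu u' hu') he he'
      · intro heq
        refine step_new hc (z0 := x0 n false) (by rw [hs]) (XL_supp hc _ K x hx) ?_ hh he' he
          heq.symm
        intro u hu u' hu' h'
        exact ih x hx (x0 n false) (x0_mem _ K) u' hu' u hu h'.symm
    · rcases hz with hz | ⟨hs', _, _, _⟩
      · refine step_new hc (z0 := x0 n true) (by rw [hs]) (XL_supp hc _ K z hz) ?_ hh he he'
        intro u hu u' hu'
        exact ih (x0 n true) (x0_mem _ K) z hz u hu u' hu'
      · rw [hs] at hs'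
        exact absurd hs' (by decide)

/-- sizes of the finite parts -/
theorem EF_card (hm : ∀ k, m k < n k) (hc : ∀ K j, K < j → c K j = 0) (K : ℕ) :
    (EF n m side c (K + 1)).card =
      (EF n m side c K).card * (2 * (Lo (n (K + 1)) (m (K + 1))).card) := by
  classical
  have hsupp := EF_supp (n := n) (m := m) (side := side) hc K
  have hcK := hc K (K + 1) (Nat.lt_succ_self K)
  have hxK : x0 n (side K) (K + 1) = 0 := x0_supp _ _ (Nat.succ_pos K)
  rw [EF, Finset.card_union_of_disjoint, Finset.card_image_of_injOn, Finset.card_image_of_injOn,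
    Finset.card_product]
  · ring
  · rintro ⟨u, l⟩ hp ⟨u', l'⟩ hp' h
    rw [Finset.mem_coe, mem_product] at hp hp'
    simp only at h hp hp'
    have h1 := congrArg (fun g : GG n => g (K + 1)) h
    simp only [DFinsupp.add_apply, hsupp u hp.1 _ (Nat.lt_succ_self K),
      hsupp u' hp'.1 _ (Nat.lt_succ_self K), hcK, hxK, DFinsupp.single_eq_same, zero_add] at h1
    have h2 : l = l' := add_right_cancel h1
    rw [h2] at h
    have h3 := add_right_cancel (add_right_cancel h)
    rw [h3, h2]
  · rintro ⟨u, l⟩ hp ⟨u', l'⟩ hp' h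
    rw [Finset.mem_coe, mem_product] at hp hp'
    simp only at h hp hp'
    have h1 := congrArg (fun g : GG n => g (K + 1)) h
    simp only [DFinsupp.add_apply, hsupp u hp.1 _ (Nat.lt_succ_self K),
      hsupp u' hp'.1 _ (Nat.lt_succ_self K), DFinsupp.single_eq_same, zero_add] at h1
    rw [h1] at h
    have h3 := add_right_cancel h
    rw [h3, h1]
  · rw [Finset.disjoint_left]
    intro g hg hg'
    rw [mem_image] at hg hg'
    obtain ⟨⟨u, l⟩, hp, rfl⟩ := hg
    obtain ⟨⟨u', l'⟩, hp', h⟩ := hg'
    rw [mem_product] at hp hp'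
    simp only at h hp hp'
    have h1 := congrArg (fun g : GG n => g (K + 1)) h
    simp only [DFinsupp.add_apply, hsupp u hp.1 _ (Nat.lt_succ_self K),
      hsupp u' hp'.1 _ (Nat.lt_succ_self K), hcK, hxK, DFinsupp.single_eq_same, zero_add] at h1
    exact lo_hi hp'.2 hp.2 (one_hi _ _) h1

end

end Pool.Agent.Q99.BC
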