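import Mathlib

set_option autoImplicit false

/-! Low and near-full vectors of the cube `𝔽₂ⁿ`. -/

namespace Pool.Agent.Q99.BC

open Finset

/-- the cube -/
abbrev Cu (n : ℕ) : Type := Fin n → ZMod 2

/-- indicator vector of a set of coordinates -/
def ev {n : ℕ} (S : Finset (Fin n)) : Cu n := fun i => if i ∈ S then 1 else 0

/-- support of a vector -/
def sp {n : ℕ} (v : Cu n) : Finset (Fin n) := univ.filter fun i => v i ≠ 0

theorem z2 (a : ZMod 2) : a = 0 ∨ a = 1 := by
  fin_cases a
  · left; rfl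
  · right; rfl

theorem z2_ne (a : ZMod 2) (h : a ≠ 0) : a = 1 := (z2 a).resolve_left h

theorem sp_ev {n : ℕ} (S : Finset (Fin n)) : sp (ev S) = S := by
  ext i
  by_cases h : i ∈ S <;> simp [sp, ev, h]

theorem ev_sp {n : ℕ} (v : Cu n) : ev (sp v) = v := by
  funext i
  by_cases h : v i = 0
  · simp [sp, ev, h]
  · rw [z2_ne _ h]
    simp [sp, ev, z2_ne _ h]

theorem add_self {n : ℕ} (v : Cu n) : v + v = 0 := by
  funext i
  exact CharTwo.add_self_eq_zero (v i)

theorem ev_symmDiff {n : ℕ} (S T : Finset (Fin n)) : ev (symmDiff S T) = ev S + ev T := by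
  funext i
  by_cases h1 : i ∈ S <;> by_cases h2 : i ∈ T <;>
    simp [ev, Finset.mem_symmDiff, h1, h2, CharTwo.add_self_eq_zero]

/-- weight -/
def wt {n : ℕ} (v : Cu n) : ℕ := (sp v).card

theorem wt_add {n : ℕ} (v w : Cu n) : wt (v + w) ≤ wt v + wt w := by
  unfold wt
  refine le_trans (Finset.card_le_card ?_) (Finset.card_union_le _ _)
  intro i hi
  simp only [sp, mem_filter, mem_univ, true_and, mem_union, Pi.add_apply] at hi ⊢
  by_contra hc
  push Not at hc
  rw [hc.1, hc.2] at hi
  simp at hi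

/-- the low vectors -/
def Lo (n m : ℕ) : Finset (Cu n) := univ.filter fun v => 2 * wt v + m < n

/-- the near-full vectors -/
def Hi (n m : ℕ) : Finset (Cu n) := univ.filter fun v => n ≤ wt v + m

theorem lo_hi {n m : ℕ} {l l' h : Cu n} (hl : l ∈ Lo n m) (hl' : l' ∈ Lo n m) (hh : h ∈ Hi n m) :
    l + h ≠ l' := by
  intro he
  simp only [Lo, Hi, mem_filter, mem_univ, true_and] at hl hl' hh
  have h1 : h = l + l' := by
    rw [← he, ← add_assoc, add_self, zero_add]
  have h2 := wt_add l l'
  rw [← h1] at h2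
  omega

theorem wt_compl {n : ℕ} (v : Cu n) : wt (v + 1) = n - wt v := by
  unfold wt
  have : sp (v + 1) = (sp v)ᶜ := by
    ext i
    simp only [sp, mem_filter, mem_univ, true_and, mem_compl, Pi.add_apply, Pi.one_apply, not_not]
    rcases z2 (v i) with h | h <;> rw [h]
    · simp
    · constructor
      · intro h'
        exact absurd (CharTwo.add_self_eq_zero (1 : ZMod 2)) h'
      · intro h'
        exact absurd h' (by decide)
  rw [this, Finset.card_compl, Fintype.card_fin]

theorem one_hi (n m : ℕ) : (1 : Cu n) ∈ Hi n m := by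
  simp only [Hi, mem_filter, mem_univ, true_and]
  have h := wt_compl (0 : Cu n)
  have h0 : wt (0 : Cu n) = 0 := by simp [wt, sp]
  rw [zero_add, h0] at h
  omega

theorem zero_lo {n m : ℕ} (h : m < n) : (0 : Cu n) ∈ Lo n m := by
  simp only [Lo, mem_filter, mem_univ, true_and]
  have h0 : wt (0 : Cu n) = 0 := by simp [wt, sp]
  omega

theorem wt_le {n : ℕ} (v : Cu n) : wt v ≤ n := by
  unfold wt
  exact (Finset.card_le_univ _).trans (by simp)

/-- vectors of a given weight -/
theorem card_wt (n j : ℕ) : (univ.filter fun v : Cu n => wt v = j).card = n.choose j := by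
  rw [← Finset.card_fin n, ← Finset.card_powersetCard, Finset.card_fin]
  refine Finset.card_bij' (fun v _ => sp v) (fun S _ => ev S) ?_ ?_ ?_ ?_
  · intro v hv
    simp only [mem_filter, mem_univ, true_and] at hv
    rw [mem_powersetCard]
    exact ⟨subset_univ _, hv⟩
  · intro S hS
    rw [mem_powersetCard] at hS
    rw [mem_filter]
    refine ⟨mem_univ _, ?_⟩
    rw [wt, sp_ev]
    exact hS.2
  · intro v _
    exact ev_sp v
  · intro S _
    exact sp_ev S

theorem cb_bound (k : ℕ) : (Nat.centralBinom k) ^ 2 * (2 * k + 1) ≤ (4 ^ k) ^ 2 := by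
  induction k with
  | zero => simp
  | succ k ih =>
    have h := Nat.succ_mul_centralBinom_succ k
    have h1 : (k + 1) ^ 2 * (Nat.centralBinom (k + 1) ^ 2 * (2 * (k + 1) + 1))
        ≤ (k + 1) ^ 2 * (4 ^ (k + 1)) ^ 2 := by
      calc (k + 1) ^ 2 * (Nat.centralBinom (k + 1) ^ 2 * (2 * (k + 1) + 1))
          = ((k + 1) * Nat.centralBinom (k + 1)) ^ 2 * (2 * k + 3) := by ring
        _ = (2 * (2 * k + 1) * Nat.centralBinom k) ^ 2 * (2 * k + 3) := by rw [h]
        _ = (Nat.centralBinom k ^ 2 * (2 * k + 1)) * (4 * ((2 * k + 1) * (2 * k + 3))) := by ring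
        _ ≤ (4 ^ k) ^ 2 * (4 * ((2 * k + 1) * (2 * k + 3))) := Nat.mul_le_mul_right _ ih
        _ ≤ (4 ^ k) ^ 2 * (4 * (4 * (k + 1) ^ 2)) := by
            apply Nat.mul_le_mul_left
            nlinarith
        _ = (k + 1) ^ 2 * (4 ^ (k + 1)) ^ 2 := by ring
    exact Nat.le_of_mul_le_mul_left h1 (by positivity)

/-- the middle layers are thin -/
theorem mid_card (k m : ℕ) :
    (univ.filter fun v : Cu (2 * k) => 2 * k ≤ 2 * wt v + m ∧ 2 * wt v ≤ 2 * k + m).card ≤
      (m + 1) * Nat.centralBinom k := by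
  have h1 : (univ.filter fun v : Cu (2 * k) => 2 * k ≤ 2 * wt v + m ∧ 2 * wt v ≤ 2 * k + m) ⊆
      (Finset.Icc (k - m / 2) (k + m / 2)).biUnion fun j => univ.filter fun v : Cu (2 * k) =>
        wt v = j := by
    intro v hv
    simp only [mem_filter, mem_univ, true_and] at hv
    simp only [mem_biUnion, mem_Icc, mem_filter, mem_univ, true_and]
    exact ⟨wt v, ⟨by omega, by omega⟩, rfl⟩
  refine (Finset.card_le_card h1).trans (Finset.card_biUnion_le.trans ?_)
  calc ∑ j ∈ Finset.Icc (k - m / 2) (k + m / 2), (univ.filter fun v : Cu (2 * k) => wt v = j).card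
      ≤ ∑ _j ∈ Finset.Icc (k - m / 2) (k + m / 2), Nat.centralBinom k := by
        apply Finset.sum_le_sum
        intro j _
        rw [card_wt]
        exact Nat.choose_le_centralBinom j k
    _ = (k + m / 2 + 1 - (k - m / 2)) * Nat.centralBinom k := by
        rw [Finset.sum_const, Nat.card_Icc, smul_eq_mul]
    _ ≤ (m + 1) * Nat.centralBinom k := by
        apply Nat.mul_le_mul_right
        omega

/-- twice the low part, and the middle, fill the cube -/
theorem lo_count (k m : ℕ) :
    4 ^ k ≤ 2 * (Lo (2 * k) m).card + (m + 1) * Nat.centralBinom k := by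
  have hc : Fintype.card (Cu (2 * k)) = 4 ^ k := by
    rw [Fintype.card_fun, ZMod.card, Fintype.card_fin, pow_mul]
    norm_num
  have himg : ((Lo (2 * k) m).image fun v => v + 1).card = (Lo (2 * k) m).card :=
    Finset.card_image_of_injective _ (add_left_injective 1)
  have hcov : (univ : Finset (Cu (2 * k))) ⊆ (Lo (2 * k) m ∪ (Lo (2 * k) m).image fun v => v + 1) ∪
      univ.filter fun v : Cu (2 * k) => 2 * k ≤ 2 * wt v + m ∧ 2 * wt v ≤ 2 * k + m := by
    intro v _
    simp only [mem_union, mem_image, mem_filter, mem_univ, true_and, Lo]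
    by_cases h1 : 2 * wt v + m < 2 * k
    · left; left; exact h1
    · by_cases h2 : 2 * wt v ≤ 2 * k + m
      · right; exact ⟨by omega, h2⟩
      · left; right
        refine ⟨v + 1, ?_, ?_⟩
        · rw [wt_compl]
          have := wt_le v
          omega
        · rw [add_assoc, add_self, add_zero]
  have h := (Finset.card_le_card hcov).trans (Finset.card_union_le _ _)
  rw [Finset.card_univ, hc] at h
  have h2 := Finset.card_union_le (Lo (2 * k) m) ((Lo (2 * k) m).image fun v => v + 1)
  have h3 := mid_card k m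
  omega

/-- for every `m` and `ε` some cube has a low part of density at least `1/2 - ε` -/
theorem exists_cube (m : ℕ) (ε : ℝ) (hε : 0 < ε) :
    ∃ n : ℕ, m < n ∧ (1 - ε) * (2 : ℝ) ^ n ≤ 2 * ((Lo n m).card : ℝ) := by
  obtain ⟨k, hk⟩ := exists_nat_gt (((m : ℝ) + 1) ^ 2 / ε ^ 2 + m + 1)
  have hm : (0 : ℝ) ≤ m := Nat.cast_nonneg m
  have hq : 0 ≤ ((m : ℝ) + 1) ^ 2 / ε ^ 2 := by positivity
  refine ⟨2 * k, ?_, ?_⟩
  · have : (m : ℝ) < k := by linarith
    have : m < k := by exact_mod_cast this
    omega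
  · have hcb : ((m : ℝ) + 1) * (Nat.centralBinom k : ℝ) ≤ ε * 4 ^ k := by
      have h1 : ((Nat.centralBinom k : ℝ)) ^ 2 * (2 * k + 1) ≤ (4 ^ k) ^ 2 := by
        exact_mod_cast cb_bound k
      have h2 : ((m : ℝ) + 1) ^ 2 ≤ ε ^ 2 * (2 * k + 1) := by
        have : ((m : ℝ) + 1) ^ 2 / ε ^ 2 ≤ 2 * k + 1 := by
          have : (0 : ℝ) ≤ k := Nat.cast_nonneg k
          linarith
        rw [div_le_iff₀ (by positivity)] at this
        linarith
      apply le_of_sq_le_sq _ (by positivity)
      have h3 : (0 : ℝ) < 2 * k + 1 := by positivity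
      have h4 : (((m : ℝ) + 1) * (Nat.centralBinom k : ℝ)) ^ 2 * (2 * k + 1) ≤
          (ε * 4 ^ k) ^ 2 * (2 * k + 1) := by
        calc (((m : ℝ) + 1) * (Nat.centralBinom k : ℝ)) ^ 2 * (2 * k + 1)
            = ((m : ℝ) + 1) ^ 2 * ((Nat.centralBinom k : ℝ) ^ 2 * (2 * k + 1)) := by ring
          _ ≤ (ε ^ 2 * (2 * k + 1)) * (4 ^ k) ^ 2 := by
              apply mul_le_mul h2 h1 (by positivity) (by positivity)
          _ = (ε * 4 ^ k) ^ 2 * (2 * k + 1) := by ring
      exact le_of_mul_le_mul_right h4 h3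
    have h5 : (4 : ℝ) ^ k ≤ 2 * ((Lo (2 * k) m).card : ℝ) + ((m : ℝ) + 1) * (Nat.centralBinom k : ℝ) := by
      exact_mod_cast lo_count k m
    have h6 : (2 : ℝ) ^ (2 * k) = 4 ^ k := by
      rw [pow_mul]; norm_num
    rw [h6]
    linarith

/-- near-full vectors in the kernel of few characters -/
theorem exists_hi {n k m : ℕ} (hkm : k ≤ m) (χ : Fin k → AddChar (Cu n) Circle) :
    ∃ h ∈ Hi n m, ∀ j, χ j h = 1 := by
  classical
  have hsq : ∀ j (v : Cu n), χ j v * χ j v = 1 := by
    intro j v
    rw [← AddChar.map_add_eq_mul, add_self, AddChar.map_zero_eq_one]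
  have hpm : ∀ j (v : Cu n), χ j v = 1 ∨ χ j v = -1 := by
    intro j v
    have h := hsq j v
    have h2 : ((χ j v : Circle) : ℂ) * ((χ j v : Circle) : ℂ) = 1 := by
      rw [← Circle.coe_mul, h, Circle.coe_one]
    rcases mul_self_eq_one_iff.1 h2 with h3 | h3
    · left
      exact Circle.ext (by rw [h3, Circle.coe_one])
    · right
      apply Circle.ext
      rw [h3]
      simp
  obtain ⟨S, hS, hmin⟩ := Finset.exists_min_image
    ((univ : Finset (Finset (Fin n))).filter fun S => ∀ j, χ j (ev S) = χ j (ev univ))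
    (fun S => S.card) ⟨univ, by simp⟩
  simp only [mem_filter, mem_univ, true_and] at hS hmin
  have hcard : S.card ≤ k := by
    by_contra hc
    push Not at hc
    have hlt : (Fintype.piFinset fun _ : Fin k => ({1, -1} : Finset Circle)).card < S.powerset.card := by
      rw [Fintype.card_piFinset, Finset.card_powerset]
      calc ∏ _i : Fin k, ({1, -1} : Finset Circle).card ≤ ∏ _i : Fin k, 2 := by
            apply Finset.prod_le_prod
            · intro i _; exact Nat.zero_le _
            · intro i _; exact Finset.card_le_two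
        _ = 2 ^ k := by simp
        _ < 2 ^ S.card := Nat.pow_lt_pow_right (by norm_num) hc
    obtain ⟨T, hT, T', hT', hne, heq⟩ := Finset.exists_ne_map_eq_of_card_lt_of_maps_to hlt
      (f := fun T => fun j => χ j (ev T)) (by
        intro T _
        simp only [Finset.mem_coe, Fintype.mem_piFinset]
        intro j
        rcases hpm j (ev T) with h | h <;> rw [h] <;> simp)
    rw [Finset.mem_powerset] at hT hT'
    set D := symmDiff T T' with hD
    have hD0 : D.Nonempty := by
      rw [Finset.nonempty_iff_ne_empty]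
      intro h0
      exact hne (symmDiff_eq_bot.1 h0)
    have hDS : D ⊆ S := by
      intro i hi
      rw [hD, Finset.mem_symmDiff] at hi
      rcases hi with h | h
      · exact hT h.1
      · exact hT' h.1
    have hDχ : ∀ j, χ j (ev D) = 1 := by
      intro j
      have hj : χ j (ev T) = χ j (ev T') := congrFun heq j
      rw [hD, ev_symmDiff, AddChar.map_add_eq_mul, hj, hsq]
    have hsd : symmDiff S D = S \ D := by
      ext i
      rw [Finset.mem_symmDiff, Finset.mem_sdiff]
      constructor
      · rintro (h | h)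
        · exact h
        · exact absurd (hDS h.1) h.2
      · intro h
        exact Or.inl h
    have h1 := hmin (S \ D) (by
      intro j
      rw [← hsd, ev_symmDiff, AddChar.map_add_eq_mul, hDχ, mul_one]
      exact hS j)
    have h2 : (S \ D).card < S.card := by
      apply Finset.card_lt_card
      refine ⟨Finset.sdiff_subset, ?_⟩
      intro hsub
      obtain ⟨i, hi⟩ := hD0
      exact (Finset.mem_sdiff.1 (hsub (hDS hi))).2 hi
    omega
  refine ⟨ev Sᶜ, ?_, ?_⟩
  · rw [Hi, mem_filter]
    refine ⟨mem_univ _, ?_⟩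
    rw [wt, sp_ev, Finset.card_compl, Fintype.card_fin]
    omega
  · intro j
    have h1 : ev Sᶜ = ev S + ev univ := by
      rw [← ev_symmDiff]
      congr 1
      ext i
      simp [Finset.mem_symmDiff]
    rw [h1, AddChar.map_add_eq_mul, hS j, hsq]

end Pool.Agent.Q99.BC
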